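import Pool.Agent.H486Z.RbD

set_option autoImplicit false

open Pool.Agent.H486Z.Rb

theorem Pool.Agent.Results.MP_d78df2_co.TuranThreshold.result :
    ∀ r : ℕ, 10 ^ 30 ≤ r → IsLeast {δ : ℝ | Forces r δ} (1 - 1 / ((r : ℝ) - 1)) :=
  fun _ hr => ⟨upper hr, fun _ h => lower (by omega) h⟩
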